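import Pool.Agent.H28.RC.Targets3

/-!
# (SPL) the density of the primes with Frobenius element in a normal subgroup
-/

set_option autoImplicit false

open NumberField Filter Topology

namespace Pool.Agent.H30.RC

open Pool.Agent.H28.RC

theorem pf_SPL : T_LGT → T_PSU → T_PRC → T_PRT → T_FR4 → T_SPL := by
  classical
  intro hLGT _ hPRC hPRT hFR4 F Ω _ _ _ _ _ _ m N hN hm hUR
  set L := IntermediateField.fixedField N with hL
  let good : Ideal (𝓞 F) → Prop := fun P => P ⊔ m = ⊤ ∧ ∃ g ∈ N, Fro P g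
  let w' : Ideal (𝓞 L) → ℝ := fun 𝔓 =>
    if good (𝔓.under (𝓞 F)) ∧ Ideal.absNorm 𝔓 = Ideal.absNorm (𝔓.under (𝓞 F)) then 1 else 0
  let w : Ideal (𝓞 F) → ℝ := fun P => if good P then (N.index : ℝ) else 0
  have hw1 : ∀ 𝔓, |w' 𝔓| ≤ 1 := by
    intro 𝔓
    simp only [w']
    split_ifs <;> simp
  have hPR : ∀ s : ℝ, 1 < s → PR w' s = PR w s := by
    refine hPRT F L w w' 1 hw1 ?_ ?_
    · intro 𝔓 _ _ h3
      simp only [w']
      rw [if_neg (fun h => h3 h.2)]
    · intro P hP hP0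
      by_cases hg : good P
      · obtain ⟨h1, h2⟩ := (hFR4 F Ω m N hN hUR P hP hP0 hg.1).1 hg.2
        have h3 : ∀ 𝔓 ∈ Ideal.primesOver P (𝓞 L), w' 𝔓 = 1 := by
          intro 𝔓 h𝔓
          have h4 : 𝔓.under (𝓞 F) = P := h𝔓.2.over.symm
          simp only [w']
          rw [if_pos]
          rw [h4]
          exact ⟨hg, h1 𝔓 h𝔓⟩
        rw [finsum_mem_congr rfl h3]
        simp only [w]
        rw [if_pos hg, ← h2]
        have hfin : (Ideal.primesOver P (𝓞 L)).Finite := by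
          have := hP
          have : P.IsMaximal := hP.isMaximal hP0
          exact IsDedekindDomain.primesOver_finite P (𝓞 L)
        rw [finsum_mem_eq_finite_toFinset_sum _ hfin, Finset.sum_const, nsmul_eq_mul, mul_one,
          Set.ncard_eq_toFinset_card _ hfin]
      · have h3 : ∀ 𝔓 ∈ Ideal.primesOver P (𝓞 L), w' 𝔓 = 0 := by
          intro 𝔓 h𝔓
          have h4 : 𝔓.under (𝓞 F) = P := h𝔓.2.over.symm
          simp only [w']
          rw [if_neg]
          rw [h4]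
          exact fun h => hg h.1
        rw [finsum_mem_congr rfl h3]
        simp only [w]
        rw [if_neg hg]
        simp
  have hw2 : ∀ s : ℝ, PR w s = (N.index : ℝ) *
      PR (F := F) (fun P => if P ⊔ m = ⊤ ∧ ∃ g ∈ N, Fro P g then 1 else 0) s := by
    intro s
    unfold PR
    rw [← tsum_mul_left]
    refine tsum_congr fun P => ?_
    simp only [w, good]
    split_ifs <;> ring
  have hmL : m.map (algebraMap (𝓞 F) (𝓞 L)) ≠ ⊥ := by
    rw [Ne, Ideal.map_eq_bot_iff_of_injective (FaithfulSMul.algebraMap_injective _ _)]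
    exact hm
  obtain ⟨C1, hC1⟩ := hLGT L
  obtain ⟨C2, hC2⟩ := hPRC L (fun _ => 1) w' 1
    ((fun v : IsDedekindDomain.HeightOneSpectrum (𝓞 L) => v.asIdeal) ''
      {v | v.asIdeal ∣ m.map (algebraMap (𝓞 F) (𝓞 L))})
    (fun _ => by simp) hw1 ((Ideal.finite_factors hmL).image _) (by
      intro 𝔓 h𝔓 h𝔓0 hpr hA
      have := h𝔓
      have : NeZero 𝔓 := ⟨h𝔓0⟩
      have hP0 : 𝔓.under (𝓞 F) ≠ ⊥ := Ideal.under_ne_bot _ h𝔓0
      have hPp : (𝔓.under (𝓞 F)).IsPrime := inferInstance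
      have hPm : (𝔓.under (𝓞 F)).IsMaximal := hPp.isMaximal hP0
      have h𝔓m : 𝔓.IsMaximal := h𝔓.isMaximal h𝔓0
      have hco : 𝔓.under (𝓞 F) ⊔ m = ⊤ := by
        by_contra hcon
        have h1 : m ≤ 𝔓.under (𝓞 F) := by
          have h2 := hPm.eq_of_le hcon le_sup_left
          rw [h2]
          exact le_sup_right
        apply hA
        refine ⟨⟨𝔓, h𝔓, h𝔓0⟩, ?_, rfl⟩
        change 𝔓 ∣ m.map (algebraMap (𝓞 F) (𝓞 L))
        rw [Ideal.dvd_iff_le, Ideal.map_le_iff_le_comap]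
        exact h1
      have hno : Ideal.absNorm 𝔓 = Ideal.absNorm (𝔓.under (𝓞 F)) := by
        have : 𝔓.LiesOver (𝔓.under (𝓞 F)) := ⟨rfl⟩
        have h1 := Ideal.relNorm_eq_pow_of_isMaximal (R := 𝓞 F) (S := 𝓞 L) 𝔓 (𝔓.under (𝓞 F))
        have h2 := congrArg Ideal.absNorm h1
        rw [Ideal.absNorm_relNorm, map_pow] at h2
        rw [h2] at hpr
        rw [h2, hpr.eq_one_of_pow, pow_one]
      have hgd : ∃ g ∈ N, Fro (𝔓.under (𝓞 F)) g := by
        by_contra hcon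
        exact (hFR4 F Ω m N hN hUR _ hPp hP0 hco).2 hcon 𝔓 ⟨h𝔓, ⟨rfl⟩⟩ hno
      simp only [w', good]
      rw [if_pos ⟨⟨hco, hgd⟩, hno⟩])
  refine ⟨C1 + C2, ?_⟩
  filter_upwards [hC1, self_mem_nhdsWithin] with s hs1 hs
  have hs2 := hC2 s hs
  rw [hPR s hs, hw2 s] at hs2
  rw [abs_le] at hs1 hs2 ⊢
  constructor <;> linarith [hs1.1, hs1.2, hs2.1, hs2.2]

end Pool.Agent.H30.RC
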